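import Pool.Agent.CRT.Stmts

/-!
Squad CRT, row KER: the weights.
-/

namespace Pool.Agent.CRT.H88

open Set Filter Topology MeasureTheory Pool.Agent.CRT

noncomputable section

/-- an integral over `[-1, 1]` of a function which vanishes outside of a small set -/
lemma int_le (f : ℝ → ℝ) (M V : ℝ) (hM : 0 ≤ M) (hV : 0 ≤ V) (S : Set ℝ)
    (hSI : S ⊆ Icc (-1) 1) (hvol : volume S ≤ ENNReal.ofReal V)
    (h0 : ∀ x ∈ Icc (-1 : ℝ) 1, x ∉ S → f x = 0) (hb : ∀ x ∈ S, |f x| ≤ M) :
    |∫ x in (-1 : ℝ)..1, f x| ≤ M * V := by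
  rw [intervalIntegral.integral_of_le (by norm_num), ← integral_Icc_eq_integral_Ioc]
  have h1 : ∫ x in Icc (-1 : ℝ) 1, f x = ∫ x in S, f x :=
    setIntegral_eq_of_subset_of_forall_sdiff_eq_zero measurableSet_Icc hSI
      (fun x hx => h0 x hx.1 hx.2)
  rw [h1]
  have hlt : volume S < ⊤ := lt_of_le_of_lt hvol ENNReal.ofReal_lt_top
  have h2 := norm_setIntegral_le_of_norm_le_const (μ := volume) (f := f) (C := M) hlt
    (fun x hx => by rw [Real.norm_eq_abs]; exact hb x hx)
  rw [Real.norm_eq_abs] at h2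
  have h3 : volume.real S ≤ V := by
    rw [Measure.real]
    exact ENNReal.toReal_le_of_le_ofReal hV hvol
  exact h2.trans (mul_le_mul_of_nonneg_left h3 hM)

/-- the derivative of the square of the positive part -/
lemma hasDerivAt_pos_sq (y : ℝ) : HasDerivAt (fun z : ℝ => (max 0 z) ^ 2) (2 * max 0 y) y := by
  rcases lt_trichotomy y 0 with hy | hy | hy
  · have h1 : (fun z : ℝ => (max 0 z) ^ 2) =ᶠ[𝓝 y] fun _ => (0 : ℝ) := by
      filter_upwards [Iio_mem_nhds hy] with z hz
      rw [max_eq_left (le_of_lt hz)]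
      norm_num
    rw [max_eq_left hy.le, mul_zero]
    exact (hasDerivAt_const y (0 : ℝ)).congr_of_eventuallyEq h1
  · subst hy
    rw [max_self, mul_zero, hasDerivAt_iff_isLittleO]
    have h2 : (fun z : ℝ => (max 0 z) ^ 2 - (max 0 (0 : ℝ)) ^ 2 - (z - 0) • (0 : ℝ)) =O[𝓝 0]
        fun z : ℝ => z ^ 2 := by
      refine Asymptotics.IsBigO.of_bound 1 (Eventually.of_forall fun z => ?_)
      rw [Real.norm_eq_abs, Real.norm_eq_abs, one_mul, max_self, smul_zero, sub_zero]
      norm_num
      rcases le_total 0 z with hz | hz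
      · rw [max_eq_right hz]
      · rw [max_eq_left hz]
        norm_num
        positivity
    refine h2.trans_isLittleO ?_
    have h3 : (fun z : ℝ => z ^ 2) =o[𝓝 0] fun z : ℝ => z := by
      have := Asymptotics.isLittleO_pow_id (𝕜 := ℝ) (n := 2) (by norm_num)
      exact this
    refine h3.congr_right fun z => by rw [sub_zero]
  · have h1 : (fun z : ℝ => (max 0 z) ^ 2) =ᶠ[𝓝 y] fun z => z ^ 2 := by
      filter_upwards [Ioi_mem_nhds hy] with z hz
      rw [max_eq_right (le_of_lt hz)]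
    rw [max_eq_right hy.le]
    have h2 := hasDerivAt_pow 2 y
    refine (h2.congr_of_eventuallyEq h1).congr_deriv ?_
    norm_num

/-- the derivative of `chi` -/
def dchi (i : Fin 3) (x : ℝ) : ℝ :=
  2 * max 0 ((1 / 100) ^ 2 - (x - ce i) ^ 2) * (-(2 * (x - ce i)))

lemma hasDerivAt_chi (i : Fin 3) (x : ℝ) : HasDerivAt (chi i) (dchi i x) x := by
  have h1 : HasDerivAt (fun x : ℝ => ((1 : ℝ) / 100) ^ 2 - (x - ce i) ^ 2) (-(2 * (x - ce i))) x := by
    have h := ((hasDerivAt_id x).sub_const (ce i)).pow 2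
    have h' := h.const_sub (((1 : ℝ) / 100) ^ 2)
    refine h'.congr_deriv ?_
    simp
  exact (hasDerivAt_pos_sq _).comp x h1

lemma chi_nonneg (i : Fin 3) (x : ℝ) : 0 ≤ chi i x := sq_nonneg _

lemma chi_le (i : Fin 3) (x : ℝ) : chi i x ≤ 1 := by
  rw [chi]
  have h1 : max 0 (((1 : ℝ) / 100) ^ 2 - (x - ce i) ^ 2) ≤ 1 := by
    apply max_le (by norm_num)
    nlinarith [sq_nonneg (x - ce i)]
  have h0 : 0 ≤ max 0 (((1 : ℝ) / 100) ^ 2 - (x - ce i) ^ 2) := le_max_left _ _
  nlinarith

lemma dchi_le (i : Fin 3) (x : ℝ) : |dchi i x| ≤ 1 := by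
  rw [dchi]
  set y := x - ce i with hy
  by_cases h : (1 / 100 : ℝ) ^ 2 - y ^ 2 ≤ 0
  · rw [max_eq_left h]
    norm_num
  · rw [not_le] at h
    rw [max_eq_right h.le]
    have h2 : |y| ≤ 1 / 100 := by
      apply abs_le_of_sq_le_sq _ (by norm_num)
      linarith
    rw [abs_mul, abs_mul, abs_neg, abs_mul, abs_of_nonneg h.le]
    have h3 : |(2 : ℝ)| = 2 := by norm_num
    rw [h3]
    have h4 : (1 / 100 : ℝ) ^ 2 - y ^ 2 ≤ 1 := by nlinarith [sq_nonneg y]
    have h5 : 0 ≤ |y| := abs_nonneg y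
    nlinarith

lemma ce_cases (i : Fin 3) : |ce i| ≤ 1 / 2 := by
  rw [ce]
  fin_cases i <;> norm_num

lemma chi_end (i : Fin 3) (x : ℝ) (hx : |x| = 1) : chi i x = 0 := by
  have h1 : 1 / 2 ≤ |x - ce i| := by
    have := abs_sub_abs_le_abs_sub x (ce i)
    have h2 := ce_cases i
    linarith
  rw [chi, max_eq_left]
  · norm_num
  · have : (1 / 2 : ℝ) ^ 2 ≤ |x - ce i| ^ 2 := by
      apply pow_le_pow_left₀ (by norm_num) h1
    rw [sq_abs] at this
    nlinarith

lemma continuous_chi (i : Fin 3) : Continuous (chi i) :=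
  continuous_iff_continuousAt.2 fun x => (hasDerivAt_chi i x).continuousAt

lemma continuous_dchi (i : Fin 3) : Continuous (dchi i) := by
  unfold dchi
  fun_prop

lemma continuous_ev (d : Co) : Continuous (ev d) := by
  unfold ev
  fun_prop

lemma Dc_le (d : Co) : |Dc d| ≤ 5 * Nm d ^ 2 := by
  have h1 : |d.1| ≤ Nm d := le_max_left _ _
  have h2 : |d.2.1| ≤ Nm d := (le_max_left _ _).trans (le_max_right _ _)
  have h3 : |d.2.2| ≤ Nm d := (le_max_right _ _).trans (le_max_right _ _)
  have h0 := abs_nonneg d.1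
  have h00 := abs_nonneg d.2.1
  have h000 := abs_nonneg d.2.2
  have h4 : |Dc d| ≤ |d.2.1| ^ 2 + 4 * (|d.1| * |d.2.2|) := by
    rw [Dc]
    refine (abs_sub _ _).trans ?_
    rw [abs_pow, abs_mul, abs_mul]
    norm_num
    ring_nf
    exact le_rfl
  have h5 : |d.2.1| ^ 2 ≤ Nm d ^ 2 := pow_le_pow_left₀ h00 h2 2
  have h6 : |d.1| * |d.2.2| ≤ Nm d * Nm d := mul_le_mul h1 h3 h000 (h0.trans h1)
  nlinarith

lemma dk_anti {x y : ℝ} (hx : 0 ≤ x) (hxy : x ≤ y) : dk y ≤ dk x := by
  rw [dk, dk]
  apply one_div_le_one_div_of_le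
  · have : 0 < Real.sqrt (1 + x) := Real.sqrt_pos.2 (by linarith)
    positivity
  · apply mul_le_mul (by linarith) (Real.sqrt_le_sqrt (by linarith)) (Real.sqrt_nonneg _)
      (by linarith)

lemma dk_pos {x : ℝ} (hx : 0 ≤ x) : 0 < dk x := by
  rw [dk]
  have : 0 < Real.sqrt (1 + x) := Real.sqrt_pos.2 (by linarith)
  positivity

/-- the derivative of the polynomial -/
def h1 (d : Co) (x : ℝ) : ℝ := d.2.1 + 2 * d.2.2 * x

lemma hasDerivAt_ev (d : Co) (x : ℝ) : HasDerivAt (ev d) (h1 d x) x := by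
  have h : HasDerivAt (fun x : ℝ => d.1 + d.2.1 * x + d.2.2 * x ^ 2) (h1 d x) x := by
    have h2 := (((hasDerivAt_id x).const_mul d.2.1).const_add d.1).add
      ((hasDerivAt_pow 2 x).const_mul d.2.2)
    refine h2.congr_deriv ?_
    rw [h1]
    norm_num
    ring
  exact h

lemma hasDerivAt_h1 (d : Co) (x : ℝ) : HasDerivAt (h1 d) (2 * d.2.2) x := by
  have h2 := ((hasDerivAt_id x).const_mul (2 * d.2.2)).const_add d.2.1
  refine h2.congr_deriv ?_
  norm_num

lemma h1_sq (d : Co) (x : ℝ) : h1 d x ^ 2 = Dc d + 4 * d.2.2 * ev d x := by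
  rw [h1, Dc, ev]
  ring

lemma abs_ev_of_h1 (d : Co) (s x : ℝ) (hN : 0 < Nm d) (hs : 0 < s)
    (hD : 8 * Nm d * s ≤ Dc d) (hx : h1 d x = 0) : s < |ev d x| := by
  by_contra hc
  rw [not_lt] at hc
  have h := h1_sq d x
  rw [hx] at h
  have h3 : |d.2.2| ≤ Nm d := (le_max_right _ _).trans (le_max_right _ _)
  have h4 : |d.2.2 * ev d x| ≤ Nm d * s := by
    rw [abs_mul]
    exact mul_le_mul h3 hc (abs_nonneg _) hN.le
  have h5 := neg_abs_le (d.2.2 * ev d x)
  have h6 : 0 < Nm d * s := by positivity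
  nlinarith

lemma h1_sq_ge (d : Co) (s x : ℝ) (hN : 0 < Nm d)
    (hD : 8 * Nm d * s ≤ Dc d) (hx : |ev d x| ≤ s) : Dc d / 2 ≤ h1 d x ^ 2 := by
  rw [h1_sq]
  have h3 : |d.2.2| ≤ Nm d := (le_max_right _ _).trans (le_max_right _ _)
  have h4 : |d.2.2 * ev d x| ≤ Nm d * s := by
    rw [abs_mul]
    exact mul_le_mul h3 hx (abs_nonneg _) hN.le
  have h5 := neg_abs_le (d.2.2 * ev d x)
  nlinarith

/-- the remainder of the integration by parts -/
def Rm (i : Fin 3) (d : Co) (F : ℝ → ℝ) (x : ℝ) : ℝ :=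
  (dchi i x / h1 d x - chi i x * (2 * d.2.2) / h1 d x ^ 2) * F (ev d x)

lemma eventually_far (d : Co) (s x : ℝ) (hx : s < |ev d x|) : ∀ᶠ y in 𝓝 x, s < |ev d y| :=
  ((continuous_ev d).abs.continuousAt).eventually (lt_mem_nhds hx)

lemma by_parts (i : Fin 3) (d : Co) (s : ℝ) (F P : ℝ → ℝ) (hN : 0 < Nm d) (hs : 0 < s)
    (hD : 8 * Nm d * s ≤ Dc d) (hP : Continuous P) (hF : ∀ y, HasDerivAt F (P y) y)
    (hP0 : ∀ y, s ≤ |y| → P y = 0) (hF0 : ∀ y, s ≤ |y| → F y = 0) :
    ∫ x in (-1 : ℝ)..1, chi i x * P (ev d x) = - ∫ x in (-1 : ℝ)..1, Rm i d F x := by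
  have hFc : Continuous F := continuous_iff_continuousAt.2 fun y => (hF y).continuousAt
  have hR : Continuous (Rm i d F) := by
    rw [continuous_iff_continuousAt]
    intro x
    by_cases hx : h1 d x = 0
    · have h1 := eventually_far d s x (abs_ev_of_h1 d s x hN hs hD hx)
      have h2 : Rm i d F =ᶠ[𝓝 x] fun _ => (0 : ℝ) := by
        filter_upwards [h1] with y hy
        rw [Rm, hF0 _ hy.le, mul_zero]
      exact (continuousAt_const).congr h2.symm
    · have c1 : ContinuousAt (h1 d) x := (hasDerivAt_h1 d x).continuousAt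
      have c2 : ContinuousAt (chi i) x := (continuous_chi i).continuousAt
      have c3 : ContinuousAt (dchi i) x := (continuous_dchi i).continuousAt
      have c4 : ContinuousAt (fun x => F (ev d x)) x :=
        (hFc.comp (continuous_ev d)).continuousAt
      exact ((c3.div c1 hx).sub ((c2.mul continuousAt_const).div (c1.pow 2) (pow_ne_zero 2 hx))).mul c4
  have hG : ∀ x, HasDerivAt (fun x => chi i x * F (ev d x) / h1 d x)
      (chi i x * P (ev d x) + Rm i d F x) x := by
    intro x
    by_cases hx : h1 d x = 0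
    · have hfar := abs_ev_of_h1 d s x hN hs hD hx
      have h1 := eventually_far d s x hfar
      have h2 : (fun x => chi i x * F (ev d x) / Pool.Agent.CRT.H88.h1 d x) =ᶠ[𝓝 x]
          fun _ => (0 : ℝ) := by
        filter_upwards [h1] with y hy
        rw [hF0 _ hy.le, mul_zero, zero_div]
      have h3 : chi i x * P (ev d x) + Rm i d F x = 0 := by
        rw [Rm, hF0 _ hfar.le, hP0 _ hfar.le, mul_zero, mul_zero, add_zero]
      rw [h3]
      exact (hasDerivAt_const x (0 : ℝ)).congr_of_eventuallyEq h2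
    · have e1 : HasDerivAt (fun x => F (ev d x)) (P (ev d x) * h1 d x) x :=
        (hF (ev d x)).comp x (hasDerivAt_ev d x)
      have e2 := ((hasDerivAt_chi i x).mul e1).div (hasDerivAt_h1 d x) hx
      refine e2.congr_deriv ?_
      rw [Rm]
      simp only [Pi.mul_apply]
      field_simp
      ring
  have hint : IntervalIntegrable (fun x => chi i x * P (ev d x)) volume (-1) 1 :=
    ((continuous_chi i).mul (hP.comp (continuous_ev d))).intervalIntegrable _ _
  have hint2 : IntervalIntegrable (Rm i d F) volume (-1) 1 := hR.intervalIntegrable _ _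
  have key := intervalIntegral.integral_eq_sub_of_hasDerivAt (a := -1) (b := 1)
    (f := fun x => chi i x * F (ev d x) / h1 d x)
    (f' := fun x => chi i x * P (ev d x) + Rm i d F x) (fun x _ => hG x) (hint.add hint2)
  rw [intervalIntegral.integral_add hint hint2] at key
  simp only [chi_end i 1 (by norm_num), chi_end i (-1) (by norm_num), zero_mul, zero_div,
    sub_zero] at key
  linarith

lemma Rm_le (i : Fin 3) (d : Co) (s : ℝ) (F : ℝ → ℝ) (hN : 0 < Nm d) (hs : 0 < s)
    (hD : 8 * Nm d * s ≤ Dc d) (hF : ∀ y, |F y| ≤ 4) (x : ℝ) (hx : |ev d x| ≤ s) :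
    |Rm i d F x| ≤ 40 * (Nm d / Dc d) := by
  have hDpos : 0 < Dc d := lt_of_lt_of_le (by positivity) hD
  have hsq := h1_sq_ge d s x hN hD hx
  have hne : h1 d x ≠ 0 := by
    intro h
    rw [h] at hsq
    norm_num at hsq
    linarith
  have h2 : 1 / h1 d x ^ 2 ≤ 2 / Dc d := by
    rw [div_le_div_iff₀ (by positivity) hDpos]
    linarith
  have hD5 : Dc d ≤ 5 * Nm d ^ 2 := (le_abs_self _).trans (Dc_le d)
  have h3 : |1 / h1 d x| ≤ 4 * (Nm d / Dc d) := by
    apply abs_le_of_sq_le_sq _ (by positivity)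
    rw [div_pow, one_pow, mul_pow, div_pow]
    refine h2.trans ?_
    rw [div_le_iff₀ hDpos]
    have : (4 : ℝ) ^ 2 * (Nm d ^ 2 / Dc d ^ 2) * Dc d = 16 * Nm d ^ 2 / Dc d := by
      field_simp
      norm_num
    rw [this, le_div_iff₀ hDpos]
    nlinarith [sq_nonneg (Nm d)]
  have h4 : |d.2.2| ≤ Nm d := (le_max_right _ _).trans (le_max_right _ _)
  have h5 : |dchi i x / h1 d x| ≤ 4 * (Nm d / Dc d) := by
    rw [div_eq_mul_one_div, abs_mul]
    calc |dchi i x| * |1 / h1 d x| ≤ 1 * |1 / h1 d x| :=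
          mul_le_mul_of_nonneg_right (dchi_le i x) (abs_nonneg _)
      _ ≤ _ := by rw [one_mul]; exact h3
  have h6 : |chi i x * (2 * d.2.2) / h1 d x ^ 2| ≤ 4 * (Nm d / Dc d) := by
    rw [div_eq_mul_one_div, abs_mul, abs_mul, abs_mul, abs_of_nonneg (chi_nonneg i x),
      abs_of_nonneg (by positivity : (0 : ℝ) ≤ 1 / h1 d x ^ 2)]
    have e1 : chi i x * (|2| * |d.2.2|) ≤ 1 * (2 * Nm d) := by
      apply mul_le_mul (chi_le i x) _ (by positivity) (by norm_num)
      rw [abs_of_pos (by norm_num : (0 : ℝ) < 2)]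
      linarith
    calc chi i x * (|2| * |d.2.2|) * (1 / h1 d x ^ 2) ≤ 1 * (2 * Nm d) * (2 / Dc d) :=
          mul_le_mul e1 h2 (by positivity) (by positivity)
      _ = 4 * (Nm d / Dc d) := by ring
  rw [Rm, abs_mul]
  have h7 : |dchi i x / h1 d x - chi i x * (2 * d.2.2) / h1 d x ^ 2| ≤ 8 * (Nm d / Dc d) := by
    refine (abs_sub _ _).trans ?_
    linarith
  have h8 : 0 ≤ Nm d / Dc d := by positivity
  calc _ ≤ 8 * (Nm d / Dc d) * 4 := mul_le_mul h7 (hF _) (abs_nonneg _) (by positivity)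
    _ ≤ 40 * (Nm d / Dc d) := by nlinarith

lemma wt_zero_off (i : Fin 3) (d : Co) (κ T : ℝ) (hκ : 0 < κ) (hT : 0 < T) (psi : PsiStmt)
    (x : ℝ) (hx : 12 * κ / T ≤ |ev d x|) : chi i x * PS κ T (ev d x) = 0 := by
  rw [(psi κ T hκ hT).2.2.1 _ hx, mul_zero]

lemma wt_bound (i : Fin 3) (d : Co) (κ T : ℝ) (hκ : 0 < κ) (hT : 0 < T) (psi : PsiStmt) (x : ℝ) :
    |chi i x * PS κ T (ev d x)| ≤ T / κ := by
  rw [abs_mul, abs_of_nonneg (chi_nonneg i x)]
  have h1 := (psi κ T hκ hT).2.1 (ev d x)
  calc chi i x * |PS κ T (ev d x)| ≤ 1 * (T / κ) :=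
        mul_le_mul (chi_le i x) h1 (abs_nonneg _) (by norm_num)
    _ = _ := one_mul _

lemma case_a (i : Fin 3) (d : Co) (κ T : ℝ) (hκ : 0 < κ) (hT : 0 < T) (psi : PsiStmt) :
    |wt i κ T d| ≤ T / κ * 2 := by
  rw [wt]
  refine int_le _ (T / κ) 2 (by positivity) (by norm_num) (Icc (-1) 1) subset_rfl ?_ ?_ ?_
  · rw [Real.volume_Icc]
    norm_num
  · intro x hx hx'
    exact absurd hx hx'
  · intro x _
    exact wt_bound i d κ T hκ hT psi x

theorem ker (psi : PsiStmt) (sua : SuaStmt) (sub : SubStmt) : KerStmt := by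
  intro κ hκ
  obtain ⟨Cs, hCs, hsua⟩ := sua
  have hdk : 0 < dk (96 * κ) := dk_pos (by positivity)
  set A : ℝ := 1 + 1 / (96 * κ) with hA
  have hApos : 0 < A := by positivity
  set C1 : ℝ := 2 / κ with hC1
  set C2 : ℝ := Cs * Real.sqrt (12 * κ) / κ / dk (96 * κ) with hC2
  set C3 : ℝ := 2880 * κ * (A * Real.sqrt A) with hC3
  have hC1p : 0 < C1 := by positivity
  have hC2p : 0 < C2 := by positivity
  have hC3p : 0 < C3 := by positivity
  refine ⟨C1 + C2 + C3, by positivity, fun T hT1 i d => ?_⟩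
  have hT : 0 < T := by linarith
  have ha := case_a i d κ T hκ hT psi
  refine ⟨?_, fun hN => ?_⟩
  · refine ha.trans ?_
    have : T / κ * 2 = C1 * T := by rw [hC1]; ring
    rw [this]
    apply mul_le_mul_of_nonneg_right _ hT.le
    linarith
  · set s : ℝ := 12 * κ / T with hs
    have hsp : 0 < s := by positivity
    have hTs : T * s = 12 * κ := by rw [hs]; field_simp
    set y : ℝ := T * |Dc d| / Nm d with hy
    have hy0 : 0 ≤ y := by positivity
    have hdy : 0 < dk y := dk_pos hy0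
    have hsq : 0 ≤ Real.sqrt (T / Nm d) := Real.sqrt_nonneg _
    -- the three cases
    rcases lt_or_ge |Dc d| (8 * Nm d * s) with hc | hc
    · -- case (b)
      have hyle : y ≤ 96 * κ := by
        rw [hy, div_le_iff₀ hN]
        have : T * |Dc d| ≤ T * (8 * Nm d * s) := mul_le_mul_of_nonneg_left hc.le hT.le
        nlinarith
      have hdk2 : dk (96 * κ) ≤ dk y := dk_anti hy0 hyle
      have hb : |wt i κ T d| ≤ T / κ * (Cs * Real.sqrt (s / Nm d)) := by
        rw [wt]
        refine int_le _ (T / κ) _ (by positivity) (by positivity)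
          {x | x ∈ Icc (-1 : ℝ) 1 ∧ |ev d x| ≤ s} (fun x hx => hx.1) (hsua d s hsp hN) ?_ ?_
        · intro x hx hx'
          apply wt_zero_off i d κ T hκ hT psi x
          by_contra hcon
          rw [not_le] at hcon
          exact hx' ⟨hx, hcon.le⟩
        · intro x _
          exact wt_bound i d κ T hκ hT psi x
      have he : T / κ * (Cs * Real.sqrt (s / Nm d)) =
          Cs * Real.sqrt (12 * κ) / κ * Real.sqrt (T / Nm d) := by
        have e1 : s / Nm d = (12 * κ) * (T / Nm d) / T ^ 2 := by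
          rw [hs]
          field_simp
        rw [e1, Real.sqrt_div (by positivity), Real.sqrt_mul (by positivity),
          Real.sqrt_sq hT.le]
        field_simp
      rw [he] at hb
      have h2 : Cs * Real.sqrt (12 * κ) / κ * Real.sqrt (T / Nm d) ≤
          C2 * (Real.sqrt (T / Nm d) * dk y) := by
        have e2 : Cs * Real.sqrt (12 * κ) / κ = C2 * dk (96 * κ) := by
          rw [hC2, div_mul_cancel₀ _ hdk.ne']
        rw [e2]
        have : Real.sqrt (T / Nm d) * dk (96 * κ) ≤ Real.sqrt (T / Nm d) * dk y :=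
          mul_le_mul_of_nonneg_left hdk2 hsq
        nlinarith
      refine (hb.trans h2).trans ?_
      apply mul_le_mul_of_nonneg_right _ (by positivity)
      linarith
    · rcases le_or_gt 0 (Dc d) with hD | hD
      · -- case (d)
        rw [abs_of_nonneg hD] at hc
        have hDpos : 0 < Dc d := lt_of_lt_of_le (by positivity) hc
        obtain ⟨hP, -, hP0, F, hF, hF4, hF0⟩ := psi κ T hκ hT
        have hpart := by_parts i d s F (PS κ T) hN hsp hc hP hF hP0 hF0
        have hb : |wt i κ T d| ≤ 40 * (Nm d / Dc d) * (6 * s / Real.sqrt (Dc d)) := by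
          rw [wt, hpart, abs_neg]
          refine int_le _ _ _ (by positivity) (by positivity)
            {x | x ∈ Icc (-1 : ℝ) 1 ∧ |ev d x| ≤ s} (fun x hx => hx.1) (sub d s hsp hN hc) ?_ ?_
          · intro x hx hx'
            rw [Rm, hF0, mul_zero]
            by_contra hcon
            rw [not_le] at hcon
            exact hx' ⟨hx, hcon.le⟩
          · intro x hx
            exact Rm_le i d s F hN hsp hc hF4 x hx.2
        have hyD : y = T * Dc d / Nm d := by rw [hy, abs_of_nonneg hD]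
        have hypos : 0 < y := by rw [hyD]; positivity
        have hyge : 96 * κ ≤ y := by
          rw [hyD, le_div_iff₀ hN]
          have : T * (8 * Nm d * s) ≤ T * Dc d := mul_le_mul_of_nonneg_left hc hT.le
          nlinarith
        have h1y : 1 + y ≤ A * y := by
          rw [hA, add_mul, one_mul]
          have : 1 ≤ 1 / (96 * κ) * y := by
            rw [one_div, ← div_eq_inv_mul, le_div_iff₀ (by positivity)]
            linarith
          linarith
        have hsy : Real.sqrt y = Real.sqrt (T / Nm d) * Real.sqrt (Dc d) := by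
          rw [← Real.sqrt_mul (by positivity), hyD]
          congr 1
          ring
        have hsypos : 0 < Real.sqrt y := Real.sqrt_pos.2 hypos
        have hsN : 0 < Real.sqrt (T / Nm d) := Real.sqrt_pos.2 (by positivity)
        have hsD : 0 < Real.sqrt (Dc d) := Real.sqrt_pos.2 hDpos
        have hsA : 0 < Real.sqrt A := Real.sqrt_pos.2 hApos
        have hdkge : 1 / (A * y * (Real.sqrt A * Real.sqrt y)) ≤ dk y := by
          rw [dk]
          apply one_div_le_one_div_of_le
          · have : 0 < Real.sqrt (1 + y) := Real.sqrt_pos.2 (by linarith)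
            positivity
          · apply mul_le_mul h1y _ (Real.sqrt_nonneg _) (by positivity)
            rw [← Real.sqrt_mul hApos.le]
            exact Real.sqrt_le_sqrt h1y
        have hmain : 40 * (Nm d / Dc d) * (6 * s / Real.sqrt (Dc d)) =
            C3 * (Real.sqrt (T / Nm d) * (1 / (A * y * (Real.sqrt A * Real.sqrt y)))) := by
          rw [hsy, hyD, hC3, hs]
          field_simp
          norm_num
        rw [hmain] at hb
        have h3 : C3 * (Real.sqrt (T / Nm d) * (1 / (A * y * (Real.sqrt A * Real.sqrt y)))) ≤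
            C3 * (Real.sqrt (T / Nm d) * dk y) :=
          mul_le_mul_of_nonneg_left (mul_le_mul_of_nonneg_left hdkge hsq) hC3p.le
        refine (hb.trans h3).trans ?_
        apply mul_le_mul_of_nonneg_right _ (by positivity)
        linarith
      · -- case (c)
        have hw : wt i κ T d = 0 := by
          rw [wt]
          have hz : ∀ x ∈ Set.uIcc (-1 : ℝ) 1, chi i x * PS κ T (ev d x) = 0 := by
            intro x _
            apply wt_zero_off i d κ T hκ hT psi x
            rw [abs_of_neg hD] at hc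
            have hh := h1_sq d x
            have h3 : |d.2.2| ≤ Nm d := (le_max_right _ _).trans (le_max_right _ _)
            by_contra hcon
            rw [not_le] at hcon
            have h4 : |d.2.2 * ev d x| ≤ Nm d * s := by
              rw [abs_mul]
              exact mul_le_mul h3 hcon.le (abs_nonneg _) hN.le
            have h5 := le_abs_self (d.2.2 * ev d x)
            have h6 : 0 < Nm d * s := by positivity
            have h7 := sq_nonneg (h1 d x)
            nlinarith
          rw [intervalIntegral.integral_congr (g := fun _ => (0 : ℝ)) hz]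
          simp
        rw [hw, abs_zero]
        positivity

end

end Pool.Agent.CRT.H88
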